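import Mathlib
import Pool.Agent.H2.RS2

namespace Pool.Agent.Results.MP_412c32_gt.CountableRank

open Pool.Agent.H2.RS

/-- The sequence rank of a countable non-discrete metrizable group is the bounding number. -/
theorem result (G : Type) [Group G] [TopologicalSpace G] [IsTopologicalGroup G] [T2Space G]
    [TopologicalSpace.MetrizableSpace G] [Countable G] (hd : ¬ DiscreteTopology G) :
    rs G = bnum :=
  rs_countable G hd

end Pool.Agent.Results.MP_412c32_gt.CountableRank
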