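import Mathlib
import Pool.Agent.H2.RS1

namespace Pool.Agent.Results.MP_412c32_gt.RankOne

open Pool.Agent.H2.RS

/-- A non-discrete compact metrizable group whose topology is generated by one sequence. -/
theorem result : ∃ (G : Type) (_ : Group G) (_ : TopologicalSpace G), IsTopologicalGroup G ∧
    T2Space G ∧ CompactSpace G ∧ TopologicalSpace.MetrizableSpace G ∧
    TopologicalSpace.SeparableSpace G ∧ ¬ DiscreteTopology G ∧ rs G = 1 ∧
    rs G < Cardinal.continuum := by
  obtain ⟨G, i1, i2, h1, h2, h3, h4, h5, h6, h7⟩ := ex_one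
  exact ⟨G, i1, i2, h1, h2, h3, h4, h5, h6, h7,
    h7 ▸ Cardinal.one_lt_aleph0.trans Cardinal.aleph0_lt_continuum⟩

end Pool.Agent.Results.MP_412c32_gt.RankOne
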